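import Pool.Agent.helper91.HZF.HDefs
import Pool.Agent.helper69.LN.Defs
import Pool.Agent.helper55.NT.Dual

/-!
# Project HZF (MP_069684_lc): circuits without k-bit hazards. Definitions
-/

set_option autoImplicit false

namespace Pool.Agent.HZF

open Finset Pool.Agent.helper38.Neg Pool.Agent.helper55.NT

/-! ### Rails: `r i v` stands for `input i can be v` (or: is `v`) -/

/-- The rails of an input. -/
abbrev Rails (n : ℕ) : Type := Fin n → Bool → Bool

/-- `loR α i v`: input `i` is stable with value `v`. -/
def loR {n : ℕ} (α : Fin n → Option Bool) : Rails n := fun i v => decide (α i = some v)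

/-- `hiR α i v`: input `i` has value `v` or is unstable. -/
def hiR {n : ℕ} (α : Fin n → Option Bool) : Rails n := fun i v => decide (α i ≠ some (!v))

/-- The place of a rail among `n + n` bits. -/
def rail {n : ℕ} (i : Fin n) (v : Bool) : Fin (n + n) := if v = true then Fin.castAdd n i else Fin.natAdd n i

/-- `n + n` bits as rails. -/
def rv {n : ℕ} (y : Fin (n + n) → Bool) : Rails n := fun i v => y (rail i v)

/-- Rails as `n + n` bits. -/
def wd {n : ℕ} (r : Rails n) : Fin (n + n) → Bool := Fin.append (fun i => r i true) fun i => r i false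

/-- The parity of `x` on `S`. -/
def par {n : ℕ} (S : Finset (Fin n)) (x : Fin n → Bool) : Bool :=
  decide ((S.filter fun i => x i = true).card % 2 = 1)

open Classical in
/-- Some word allowed by the rails on `S` has parity `v` on `S`. -/
noncomputable def pw {n : ℕ} (S : Finset (Fin n)) (v : Bool) (r : Rails n) : Bool :=
  decide (∃ x : Fin n → Bool, (∀ i ∈ S, r i (x i) = true) ∧ par S x = v)

/-! ### The construction. `h`: bucket; `χ`: the splitting functions; `σ`: state -/

section
variable {n B m : ℕ}

/-- The buckets which are already split. -/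
def supp (σ : Fin B → Option (Fin m)) : Finset (Fin B) := univ.filter fun b => σ b ≠ none

/-- The part `v` of the bucket `b` (the whole bucket if it is not split). -/
def part (h : Fin n → Fin B) (χ : Fin m → Fin n → Bool) (σ : Fin B → Option (Fin m)) (b : Fin B)
    (v : Bool) : Finset (Fin n) := univ.filter fun i => h i = b ∧ ∀ x, σ b = some x → χ x i = v

open Classical in
/-- The function put in place of the rail `(i, v)`. -/
noncomputable def leaf (h : Fin n → Fin B) (χ : Fin m → Fin n → Bool) (σ : Fin B → Option (Fin m))
    (OA OB a c : Finset (Fin B)) (g : Fin B → Fin m → Bool) (r : Rails n) (i : Fin n) (v : Bool) : Bool :=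
  if (∃ x, σ (h i) = some x ∧ χ x i = true) ∨ (σ (h i) = none ∧ h i ∈ OA ∧ h i ∉ OB) then
    r i v || pw ((part h χ σ (h i) true).erase i) (xor v (decide (h i ∈ c))) r
  else if (∃ x, σ (h i) = some x ∧ χ x i = false) ∨ (σ (h i) = none ∧ h i ∉ OA ∧ h i ∈ OB) then
    r i v && pw ((part h χ σ (h i) false).erase i) (xor v (decide (h i ∈ a))) r
  else if h i ∈ OA ∧ h i ∈ OB then
    (r i v && decide (∃ x, χ x i = false ∧ g (h i) x = true)) ||
      (pw ((part h χ σ (h i) true).erase i) v r && decide (∀ x, χ x i = true → g (h i) x = true))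
  else r i v

/-- The circuit `C` evaluated with the functions `leaf` as rails. -/
noncomputable def body {s : ℕ} (C : Circuit n s) (o : Fin (n + s)) (h : Fin n → Fin B)
    (χ : Fin m → Fin n → Bool) (σ : Fin B → Option (Fin m)) (OA OB a c : Finset (Fin B))
    (g : Fin B → Fin m → Bool) (r : Rails n) : Bool :=
  (dval C (fun i => leaf h χ σ OA OB a c g r i true) (fun i => leaf h χ σ OA OB a c g r i false) o).1

open Classical in
/-- One step of the recursion. -/
noncomputable def step {s : ℕ} (C : Circuit n s) (o : Fin (n + s)) (k : ℕ) (h : Fin n → Fin B)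
    (χ : Fin m → Fin n → Bool) (σ : Fin B → Option (Fin m)) (g : Fin B → Fin m → Bool)
    (r : Rails n) : Bool :=
  decide (∀ OB : Finset (Fin B), OB.card ≤ k ∧ supp σ ⊆ OB →
    ∃ OA : Finset (Fin B), (OA.card ≤ k ∧ supp σ ⊆ OA) ∧
      ∃ a : Finset (Fin B), a ⊆ OB ∧ ∀ c : Finset (Fin B), c ⊆ OA →
        body C o h χ σ OA OB a c g r = true)

/-- The recursion. -/
noncomputable def G {s : ℕ} (C : Circuit n s) (o : Fin (n + s)) (k : ℕ) (h : Fin n → Fin B)
    (χ : Fin m → Fin n → Bool) : ℕ → (Fin B → Option (Fin m)) → Rails n → Bool
  | 0, _, _ => true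
  | d + 1, σ, r => step C o k h χ σ (fun b x => G C o k h χ d (Function.update σ b (some x)) r) r

/-- At most one unstable input in every bucket. -/
def Iso (h : Fin n → Fin B) (α : Fin n → Option Bool) : Prop :=
  ∀ i j, α i = none → α j = none → h i = h j → i = j

/-- In every split bucket there is an unstable input, in its part `v`. -/
def InS (h : Fin n → Fin B) (χ : Fin m → Fin n → Bool) (v : Bool) (σ : Fin B → Option (Fin m))
    (α : Fin n → Option Bool) : Prop := ∀ b x, σ b = some x → ∃ i, h i = b ∧ α i = none ∧ χ x i = v

/-- The splitting functions separate the inputs. -/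
def Sep (χ : Fin m → Fin n → Bool) : Prop := ∀ i j, i ≠ j → ∃ x, χ x i = true ∧ χ x j = false

/-- The buckets with an unstable input. -/
def occ (h : Fin n → Fin B) (α : Fin n → Option Bool) : Finset (Fin B) :=
  univ.filter fun b => ∃ i, h i = b ∧ α i = none

/-- The stable values (`false` at the unstable places). -/
def sv (α : Fin n → Option Bool) : Fin n → Bool := fun i => (α i).getD false

/-- The announced parities on the parts `v` of the buckets in `O`. -/
def ann (h : Fin n → Fin B) (χ : Fin m → Fin n → Bool) (σ : Fin B → Option (Fin m)) (v : Bool)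
    (O : Finset (Fin B)) (α : Fin n → Option Bool) : Finset (Fin B) :=
  O.filter fun b => par (part h χ σ b v) (sv α) = true

open Classical in
/-- The resolution of `α` with the parities prescribed by `e` on the parts `v` (parity `0` in the buckets of `O` which
are not split). -/
noncomputable def cmp (h : Fin n → Fin B) (χ : Fin m → Fin n → Bool) (σ : Fin B → Option (Fin m))
    (v : Bool) (O e : Finset (Fin B)) (α : Fin n → Option Bool) : Fin n → Bool := fun i =>
  match α i with
  | some b => b
  | none => xor (par ((part h χ σ (h i) v).erase i) (sv α))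
      (decide (h i ∈ e ∧ (σ (h i) ≠ none ∨ h i ∉ O)))

end

end Pool.Agent.HZF
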