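import Pool.Agent.helper91.HZF.Spec

set_option autoImplicit false

namespace Pool.Agent.HZF

open Finset Pool.Agent.helper38.Neg Pool.Agent.helper55.NT

theorem GAB_supp {B m : ℕ} (σ : Fin B → Option (Fin m)) (b : Fin B) (x : Fin m) (h : σ b = none) :
    (supp (Function.update σ b (some x))).card = (supp σ).card + 1 := by
  classical
  have : supp (Function.update σ b (some x)) = insert b (supp σ) := by
    ext b'
    unfold supp
    rw [mem_insert, mem_filter, mem_filter]
    by_cases hb : b' = b
    · subst hb
      simp
    · rw [Function.update_of_ne hb]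
      simp [hb]
  rw [this, card_insert_of_notMem]
  unfold supp
  rw [mem_filter]
  rintro ⟨-, h1⟩
  exact h1 h

theorem GAB (hSTA : STA_stmt) (hSTB : STB_stmt) (hOCC : OCC_stmt) : GAB_stmt := by
  intro n s B m C o k h χ α hsep hiso hk d
  obtain ⟨O1, O2, -⟩ := hOCC
  induction d with
  | zero =>
    intro σ
    refine ⟨fun _ _ => rfl, fun _ hin hd => ?_⟩
    exfalso
    have h1 := card_le_card (O2 n B m h χ false σ α hin)
    have h2 := O1 n B h α
    omega
  | succ d ih =>
    intro σ
    refine ⟨fun hall hin => ?_, fun hall hin hd => ?_⟩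
    · exact hSTA n s B m C o k h χ σ (fun b x => G C o k h χ d (Function.update σ b (some x)) (loR α)) α
        hsep hiso hk hin hall fun b x _ hin' => (ih _).1 hall hin'
    · refine hSTB n s B m C o k h χ σ (fun b x => G C o k h χ d (Function.update σ b (some x)) (hiR α)) α
        hsep hiso hk hin hall fun b x hb hin' => (ih _).2 hall hin' ?_
      rw [GAB_supp σ b x hb]
      omega

end Pool.Agent.HZF
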