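import Pool.Agent.helper91.HZF.Spec

set_option autoImplicit false

namespace Pool.Agent.HZF

open Finset Pool.Agent.helper38.Neg Pool.Agent.helper55.NT

theorem LFA (hPWL : PWL_stmt) : LFA_stmt := by
  intro n B m h χ σ OB c g α hsep hiso hin hsup hg i
  obtain ⟨P1, -, P3⟩ := hPWL
  have hlo : ∀ b, α i = some b → loR α i b = true := by
    intro b hb
    simp [loR, hb]
  by_cases c1 : (∃ x, σ (h i) = some x ∧ χ x i = true) ∨ (σ (h i) = none ∧ h i ∈ occ h α ∧ h i ∉ OB)
  · unfold leaf
    rw [if_pos c1, Bool.or_eq_true]
    cases hα : α i with
    | some b =>
      left
      have : cmp h χ σ true OB c α i = b := by simp [cmp, hα]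
      rw [this]
      exact hlo b hα
    | none =>
      right
      have hz : cmp h χ σ true OB c α i =
          xor (par ((part h χ σ (h i) true).erase i) (sv α)) (decide (h i ∈ c)) := by
        have : (σ (h i) ≠ none ∨ h i ∉ OB) := by
          rcases c1 with ⟨x, hx, -⟩ | ⟨-, -, h3⟩
          · left; rw [hx]; simp
          · right; exact h3
        simp only [cmp, hα]
        congr 1
        simp [this]
      apply P1
      · intro j hj hj'
        rw [mem_erase] at hj
        unfold part at hj
        rw [mem_filter] at hj
        exact hj.1 (hiso j i hj' hα hj.2.2.1)
      · rw [hz]
        cases par ((part h χ σ (h i) true).erase i) (sv α) <;> cases decide (h i ∈ c) <;> rfl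
  · by_cases c2 : (∃ x, σ (h i) = some x ∧ χ x i = false) ∨ (σ (h i) = none ∧ h i ∉ occ h α ∧ h i ∈ OB)
    · unfold leaf
      rw [if_neg c1, if_pos c2, Bool.and_eq_true]
      -- the part false is stable
      have hst : ∀ j, h j = h i → (∀ x, σ (h i) = some x → χ x j = false) → α j ≠ none := by
        intro j hj hx hj'
        rcases c2 with ⟨x, hx2, hx3⟩ | ⟨-, h2, -⟩
        · obtain ⟨i', h1, h2, h3⟩ := hin (h i) x hx2
          have : i' = j := hiso i' j h2 hj' (h1.trans hj.symm)
          rw [this, hx x hx2] at h3
          exact Bool.false_ne_true h3
        · exact h2 (by unfold occ; rw [mem_filter]; exact ⟨mem_univ _, j, hj, hj'⟩)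
      have hi0 : ∀ x, σ (h i) = some x → χ x i = false := by
        intro x hx
        rcases c2 with ⟨x', hx2, hx3⟩ | ⟨h1, -, -⟩
        · rw [hx] at hx2
          rw [Option.some.inj hx2]
          exact hx3
        · rw [h1] at hx; exact absurd hx (by simp)
      have hib : h i ∈ OB := by
        rcases c2 with ⟨x', hx2, hx3⟩ | ⟨-, -, h1⟩
        · apply hsup
          unfold supp
          rw [mem_filter]
          exact ⟨mem_univ _, by rw [hx2]; simp⟩
        · exact h1
      have hαi := hst i rfl hi0
      cases hα : α i with
      | none => exact absurd hα hαi
      | some b =>
        have hz : cmp h χ σ true OB c α i = b := by simp [cmp, hα]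
        rw [hz]
        refine ⟨hlo b hα, ?_⟩
        apply P1
        · intro j hj
          rw [mem_erase] at hj
          unfold part at hj
          rw [mem_filter] at hj
          exact hst j hj.2.2.1 hj.2.2.2
        · have h4 : i ∈ part h χ σ (h i) false := by
            unfold part
            rw [mem_filter]
            exact ⟨mem_univ _, rfl, hi0⟩
          have h5 := P3 n (part h χ σ (h i) false) i (sv α) h4
          have h6 : sv α i = b := by simp [sv, hα]
          have h8 : h i ∈ ann h χ σ false OB α ↔ par (part h χ σ (h i) false) (sv α) = true := by
            unfold ann
            rw [mem_filter]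
            simp [hib]
          have h7 : decide (h i ∈ ann h χ σ false OB α) = par (part h χ σ (h i) false) (sv α) := by
            cases hp : par (part h χ σ (h i) false) (sv α) with
            | true => exact decide_eq_true (h8.2 hp)
            | false =>
              apply decide_eq_false
              intro hh
              have := h8.1 hh
              rw [hp] at this
              exact Bool.false_ne_true this
          rw [h7, h5, h6]
          cases par ((part h χ σ (h i) false).erase i) (sv α) <;> cases b <;> rfl
    · unfold leaf
      rw [if_neg c1, if_neg c2]
      have hσ : σ (h i) = none := by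
        cases hs : σ (h i) with
        | none => rfl
        | some x =>
          exfalso
          cases hx : χ x i with
          | true => exact c1 (Or.inl ⟨x, hs, hx⟩)
          | false => exact c2 (Or.inl ⟨x, hs, hx⟩)
      by_cases c3 : h i ∈ occ h α ∧ h i ∈ OB
      · rw [if_pos c3, Bool.or_eq_true]
        cases hα : α i with
        | some b =>
          left
          have hz : cmp h χ σ true OB c α i = b := by simp [cmp, hα]
          rw [hz, Bool.and_eq_true]
          refine ⟨hlo b hα, ?_⟩
          rw [decide_eq_true_iff]
          obtain ⟨i', h1, h2⟩ : ∃ i', h i' = h i ∧ α i' = none := by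
            have := c3.1
            unfold occ at this
            rw [mem_filter] at this
            exact this.2
          have hne : i' ≠ i := fun h => by rw [h, hα] at h2; exact absurd h2 (by simp)
          obtain ⟨x, hx1, hx2⟩ := hsep i' i hne
          refine ⟨x, hx2, hg (h i) x hσ ?_⟩
          intro b' x' hx'
          by_cases hb : b' = h i
          · subst hb
            rw [Function.update_self] at hx'
            rw [← Option.some.inj hx']
            exact ⟨i', h1, h2, hx1⟩
          · rw [Function.update_of_ne hb] at hx'
            exact hin b' x' hx'
        | none =>
          right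
          have hz : cmp h χ σ true OB c α i =
              par ((part h χ σ (h i) true).erase i) (sv α) := by
            simp only [cmp, hα]
            have : ¬ (h i ∈ c ∧ (σ (h i) ≠ none ∨ h i ∉ OB)) := by
              rintro ⟨-, h1 | h1⟩
              · exact h1 hσ
              · exact h1 c3.2
            simp [this]
          rw [Bool.and_eq_true]
          refine ⟨?_, ?_⟩
          · apply P1
            · intro j hj hj'
              rw [mem_erase] at hj
              unfold part at hj
              rw [mem_filter] at hj
              exact hj.1 (hiso j i hj' hα hj.2.2.1)
            · exact hz.symm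
          · rw [decide_eq_true_iff]
            intro x hx
            apply hg (h i) x hσ
            intro b' x' hx'
            by_cases hb : b' = h i
            · subst hb
              rw [Function.update_self] at hx'
              rw [← Option.some.inj hx']
              exact ⟨i, rfl, hα, hx⟩
            · rw [Function.update_of_ne hb] at hx'
              exact hin b' x' hx'
      · rw [if_neg c3]
        have hno : h i ∉ occ h α := by
          intro hh
          by_cases hO : h i ∈ OB
          · exact c3 ⟨hh, hO⟩
          · exact c1 (Or.inr ⟨hσ, hh, hO⟩)
        cases hα : α i with
        | none =>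
          exfalso
          apply hno
          unfold occ
          rw [mem_filter]
          exact ⟨mem_univ _, i, rfl, hα⟩
        | some b =>
          have hz : cmp h χ σ true OB c α i = b := by simp [cmp, hα]
          rw [hz]
          exact hlo b hα

end Pool.Agent.HZF
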