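import Pool.Agent.helper91.HZF.Spec

set_option autoImplicit false

namespace Pool.Agent.HZF

open Finset Pool.Agent.helper38.Neg Pool.Agent.helper55.NT

theorem LFB (hPWL : PWL_stmt) : LFB_stmt := by
  intro n B m h χ σ OA a g α hsep hiso hin hsup hg i
  obtain ⟨-, P2, P3⟩ := hPWL
  have hhi : ∀ b, α i = some b → hiR α i (!b) = false := by
    intro b hb
    simp [hiR, hb]
  by_cases c1 : (∃ x, σ (h i) = some x ∧ χ x i = true) ∨ (σ (h i) = none ∧ h i ∈ OA ∧ h i ∉ occ h α)
  · unfold leaf
    rw [if_pos c1, Bool.or_eq_false_iff]
    -- the part true is stable
    have hst : ∀ j, h j = h i → (∀ x, σ (h i) = some x → χ x j = true) → α j ≠ none := by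
      intro j hj hx hj'
      rcases c1 with ⟨x, hx2, hx3⟩ | ⟨-, -, h2⟩
      · obtain ⟨i', h1, h2, h3⟩ := hin (h i) x hx2
        have : i' = j := hiso i' j h2 hj' (h1.trans hj.symm)
        rw [this, hx x hx2] at h3
        exact Bool.false_ne_true h3.symm
      · exact h2 (by unfold occ; rw [mem_filter]; exact ⟨mem_univ _, j, hj, hj'⟩)
    have hi0 : ∀ x, σ (h i) = some x → χ x i = true := by
      intro x hx
      rcases c1 with ⟨x', hx2, hx3⟩ | ⟨h1, -, -⟩
      · rw [hx] at hx2
        rw [Option.some.inj hx2]
        exact hx3
      · rw [h1] at hx; exact absurd hx (by simp)
    have hib : h i ∈ OA := by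
      rcases c1 with ⟨x', hx2, hx3⟩ | ⟨-, h1, -⟩
      · apply hsup
        unfold supp
        rw [mem_filter]
        exact ⟨mem_univ _, by rw [hx2]; simp⟩
      · exact h1
    have hαi := hst i rfl hi0
    cases hα : α i with
    | none => exact absurd hα hαi
    | some b =>
      have hz : cmp h χ σ false OA a α i = b := by simp [cmp, hα]
      rw [hz]
      refine ⟨hhi b hα, ?_⟩
      apply P2
      · intro j hj
        rw [mem_erase] at hj
        unfold part at hj
        rw [mem_filter] at hj
        exact hst j hj.2.2.1 hj.2.2.2
      · have h4 : i ∈ part h χ σ (h i) true := by
          unfold part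
          rw [mem_filter]
          exact ⟨mem_univ _, rfl, hi0⟩
        have h5 := P3 n (part h χ σ (h i) true) i (sv α) h4
        have h6 : sv α i = b := by simp [sv, hα]
        have h8 : h i ∈ ann h χ σ true OA α ↔ par (part h χ σ (h i) true) (sv α) = true := by
          unfold ann
          rw [mem_filter]
          simp [hib]
        have h7 : decide (h i ∈ ann h χ σ true OA α) = par (part h χ σ (h i) true) (sv α) := by
          cases hp : par (part h χ σ (h i) true) (sv α) with
          | true => exact decide_eq_true (h8.2 hp)
          | false =>
            apply decide_eq_false
            intro hh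
            have := h8.1 hh
            rw [hp] at this
            exact Bool.false_ne_true this
        rw [h7, h5, h6]
        cases par ((part h χ σ (h i) true).erase i) (sv α) <;> cases b <;> simp
  · by_cases c2 : (∃ x, σ (h i) = some x ∧ χ x i = false) ∨ (σ (h i) = none ∧ h i ∉ OA ∧ h i ∈ occ h α)
    · unfold leaf
      rw [if_neg c1, if_pos c2, Bool.and_eq_false_iff]
      cases hα : α i with
      | some b =>
        left
        have : cmp h χ σ false OA a α i = b := by simp [cmp, hα]
        rw [this]
        exact hhi b hα
      | none =>
        right
        have hz : cmp h χ σ false OA a α i =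
            xor (par ((part h χ σ (h i) false).erase i) (sv α)) (decide (h i ∈ a)) := by
          have : (σ (h i) ≠ none ∨ h i ∉ OA) := by
            rcases c2 with ⟨x, hx, -⟩ | ⟨-, h3, -⟩
            · left; rw [hx]; simp
            · right; exact h3
          simp only [cmp, hα]
          congr 1
          simp [this]
        apply P2
        · intro j hj hj'
          rw [mem_erase] at hj
          unfold part at hj
          rw [mem_filter] at hj
          exact hj.1 (hiso j i hj' hα hj.2.2.1)
        · rw [hz]
          cases par ((part h χ σ (h i) false).erase i) (sv α) <;> cases decide (h i ∈ a) <;> simp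
    · unfold leaf
      rw [if_neg c1, if_neg c2]
      have hσ : σ (h i) = none := by
        cases hs : σ (h i) with
        | none => rfl
        | some x =>
          exfalso
          cases hx : χ x i with
          | true => exact c1 (Or.inl ⟨x, hs, hx⟩)
          | false => exact c2 (Or.inl ⟨x, hs, hx⟩)
      by_cases c3 : h i ∈ OA ∧ h i ∈ occ h α
      · rw [if_pos c3, Bool.or_eq_false_iff, Bool.and_eq_false_iff, Bool.and_eq_false_iff]
        cases hα : α i with
        | some b =>
          have hz : cmp h χ σ false OA a α i = b := by simp [cmp, hα]
          rw [hz]
          refine ⟨Or.inl (hhi b hα), Or.inr ?_⟩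
          rw [decide_eq_false_iff_not]
          intro hall
          obtain ⟨i', h1, h2⟩ : ∃ i', h i' = h i ∧ α i' = none := by
            have := c3.2
            unfold occ at this
            rw [mem_filter] at this
            exact this.2
          have hne : i ≠ i' := fun h => by rw [← h, hα] at h2; exact absurd h2 (by simp)
          obtain ⟨x, hx1, hx2⟩ := hsep i i' hne
          have h3 := hall x hx1
          rw [hg (h i) x hσ ?_] at h3
          · exact Bool.false_ne_true h3
          · intro b' x' hx'
            by_cases hb : b' = h i
            · subst hb
              rw [Function.update_self] at hx'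
              rw [← Option.some.inj hx']
              exact ⟨i', h1, h2, hx2⟩
            · rw [Function.update_of_ne hb] at hx'
              exact hin b' x' hx'
        | none =>
          have hz : cmp h χ σ false OA a α i =
              par ((part h χ σ (h i) false).erase i) (sv α) := by
            simp only [cmp, hα]
            have : ¬ (h i ∈ a ∧ (σ (h i) ≠ none ∨ h i ∉ OA)) := by
              rintro ⟨-, h1 | h1⟩
              · exact h1 hσ
              · exact h1 c3.1
            simp [this]
          have hpt : part h χ σ (h i) true = part h χ σ (h i) false := by
            unfold part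
            rw [hσ]
            simp
          refine ⟨Or.inr ?_, Or.inl ?_⟩
          · rw [decide_eq_false_iff_not]
            rintro ⟨x, hx, hgx⟩
            rw [hg (h i) x hσ ?_] at hgx
            · exact Bool.false_ne_true hgx
            · intro b' x' hx'
              by_cases hb : b' = h i
              · subst hb
                rw [Function.update_self] at hx'
                rw [← Option.some.inj hx']
                exact ⟨i, rfl, hα, hx⟩
              · rw [Function.update_of_ne hb] at hx'
                exact hin b' x' hx'
          · rw [hpt]
            apply P2
            · intro j hj hj'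
              rw [mem_erase] at hj
              unfold part at hj
              rw [mem_filter] at hj
              exact hj.1 (hiso j i hj' hα hj.2.2.1)
            · rw [hz]
              cases par ((part h χ σ (h i) false).erase i) (sv α) <;> simp
      · rw [if_neg c3]
        have hno : h i ∉ occ h α := by
          intro hh
          by_cases hO : h i ∈ OA
          · exact c3 ⟨hO, hh⟩
          · exact c2 (Or.inr ⟨hσ, hO, hh⟩)
        cases hα : α i with
        | none =>
          exfalso
          apply hno
          unfold occ
          rw [mem_filter]
          exact ⟨mem_univ _, i, rfl, hα⟩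
        | some b =>
          have hz : cmp h χ σ false OA a α i = b := by simp [cmp, hα]
          rw [hz]
          exact hhi b hα

end Pool.Agent.HZF
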