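import Pool.Agent.helper91.HZF.Spec

set_option autoImplicit false

namespace Pool.Agent.HZF

open Finset Pool.Agent.helper38.Neg Pool.Agent.helper55.NT

theorem OCC : OCC_stmt := by
  refine ⟨?_, ?_, ?_⟩
  · intro n B h α
    have : occ h α ⊆ (univ.filter fun i => α i = none).image h := by
      intro b hb
      unfold occ at hb
      rw [mem_filter] at hb
      obtain ⟨-, i, h1, h2⟩ := hb
      rw [mem_image]
      exact ⟨i, by rw [mem_filter]; exact ⟨mem_univ _, h2⟩, h1⟩
    exact (card_le_card this).trans card_image_le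
  · intro n B m h χ v σ α hin b hb
    unfold supp at hb
    rw [mem_filter] at hb
    cases hs : σ b with
    | none => exact absurd hs hb.2
    | some x =>
      obtain ⟨i, h1, h2, -⟩ := hin b x hs
      unfold occ
      rw [mem_filter]
      exact ⟨mem_univ _, i, h1, h2⟩
  · intro n B m h χ σ v O e α i b hb
    simp [cmp, hb]

theorem STA (hLFA : LFA_stmt) (hOCC : OCC_stmt) : STA_stmt := by
  classical
  intro n s B m C o k h χ σ g α hsep hiso hk hin hall hg
  obtain ⟨O1, O2, O3⟩ := hOCC
  unfold step
  rw [decide_eq_true_iff]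
  rintro OB ⟨-, hsup⟩
  refine ⟨occ h α, ⟨(O1 n B h α).trans hk, O2 n B m h χ true σ α hin⟩, ann h χ σ false OB α,
    filter_subset _ _, fun c _ => ?_⟩
  have hL := hLFA n B m h χ σ OB c g α hsep hiso hin hsup hg
  unfold body
  refine (dval_le C (cmp h χ σ true OB c α) _ _ (fun i => ⟨fun hz => ?_, fun hz => ?_⟩) o).1
    (hall _ (O3 n B m h χ σ true OB c α))
  · have := hL i
    rw [hz] at this
    exact this
  · have := hL i
    rw [hz] at this
    exact this

theorem STB (hLFB : LFB_stmt) (hOCC : OCC_stmt) : STB_stmt := by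
  classical
  intro n s B m C o k h χ σ g α hsep hiso hk hin hall hg
  obtain ⟨O1, O2, O3⟩ := hOCC
  unfold step
  rw [decide_eq_false_iff_not]
  intro hcon
  obtain ⟨OA, ⟨-, hsup⟩, a, -, hc⟩ := hcon (occ h α) ⟨(O1 n B h α).trans hk, O2 n B m h χ false σ α hin⟩
  have h1 := hc (ann h χ σ true OA α) (filter_subset _ _)
  have hL := hLFB n B m h χ σ OA a g α hsep hiso hin hsup hg
  unfold body at h1
  have h2 := (dval_ge C (cmp h χ σ false OA a α) _ _ (fun i => ⟨fun hz => ?_, fun hz => ?_⟩) o).1 h1
  · rw [hall _ (O3 n B m h χ σ false OA a α)] at h2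
    exact Bool.false_ne_true h2
  · have := hL i
    cases hzi : cmp h χ σ false OA a α i with
    | true => rfl
    | false =>
      rw [hzi] at this
      rw [Bool.not_false] at this
      rw [this] at hz
      exact absurd hz (by simp)
  · have := hL i
    cases hzi : cmp h χ σ false OA a α i with
    | false => rfl
    | true =>
      rw [hzi] at this
      rw [Bool.not_true] at this
      rw [this] at hz
      exact absurd hz (by simp)

end Pool.Agent.HZF
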