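import Pool.Agent.helper91.HZF.Spec
import Pool.Agent.helper69.LN.All
import Pool.Agent.helper80.HM.All2
import Pool.Agent.helper64.NG.Thr

/-!
# Project HZF (MP_069684_lc): the thresholds from the rows
-/

set_option autoImplicit false

namespace Pool.Agent.HZF

open Finset Pool.Agent.helper38.Neg Pool.Agent.helper55.NT Pool.Agent.LN

theorem Thr_unst {n : ℕ} (α : Fin n → Option Bool) : unst α ≤ n := by
  have h := card_filter_le (univ : Finset (Fin n)) fun i => α i = none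
  rw [card_univ, Fintype.card_fin] at h
  exact h

theorem Thr_min {k n s : ℕ} {C : Circuit n s} {o : Fin (n + s)} (h : HazFree (min k n) C o) :
    HazFree k C o := fun α b hu hx => h α b (le_min hu (Thr_unst α)) hx

theorem Thr_poly_min {k : ℕ → ℕ} {A : Lang} (h : HazPoly (fun n => min (k n) n) A) : HazPoly k A := by
  obtain ⟨p, hp⟩ := h
  refine ⟨p, fun n => ?_⟩
  obtain ⟨s, hs, C, o, h1, h2⟩ := hp n
  exact ⟨s, hs, C, o, h1, Thr_min h2⟩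

theorem Thr_inP {k : ℕ → ℕ} {A : Lang} (h : HazPoly k A) : InPPoly A := by
  obtain ⟨p, hp⟩ := h
  refine ⟨p, fun n => ?_⟩
  obtain ⟨s, hs, C, o, h1, -⟩ := hp n
  exact ⟨s, hs, C, o, h1⟩

theorem Thr_inQ {k : ℕ → ℕ} {A : Lang} (h : HazQuasi k A) : InQuasi A := by
  obtain ⟨p, hp⟩ := h
  refine ⟨p, fun n => ?_⟩
  obtain ⟨s, hs, C, o, h1, -⟩ := hp n
  exact ⟨s, hs, C, o, h1⟩

theorem Thr_loc {u n s : ℕ} {C : Circuit n s} (hF : FreeOf u C) :
    Pool.Agent.LNB.LocPat u (2 ^ 0) C := by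
  intro x _ hag
  have : (Set.range fun i => C.notVals (x i)) ⊆ {C.notVals (x 0)} := by
    rintro _ ⟨i, rfl⟩
    exact hF _ _ (hag i 0)
  calc (Set.range fun i => C.notVals (x i)).encard
      ≤ ({C.notVals (x 0)} : Set (List Bool)).encard := Set.encard_le_encard this
    _ = 1 := Set.encard_singleton _
    _ ≤ ((2 ^ 0 : ℕ) : ℕ∞) := by norm_num

theorem Thr_quasi (hUPQ : UPQ_stmt) (hQFR : QFR_stmt) (k : ℕ → ℕ) :
    [∃ c : ℕ, ∀ n, min (k n) n ≤ c * lg n ^ c,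
      ∀ A, InQuasi A → HazQuasi k A,
      ∀ A, InPPoly A → (∀ n, Monotone (A n)) → HazQuasi k A].TFAE := by
  tfae_have 1 → 2 := fun h A hA => hUPQ k A h hA
  tfae_have 2 → 3 := fun h A hA _ => h A (Pool.Agent.NG.inQuasi_of_inPPoly hA)
  tfae_have 3 → 1 := by
    intro h
    obtain ⟨c, hc⟩ := ((Pool.Agent.NG.quasi_tfae_P k fun _ => 0).out 2 0).1 (fun A hA hm => by
      obtain ⟨q, hq⟩ := hQFR.1 k A (h A hA hm) fun n =>
        fun x y hxy _ hx => hm n hxy hx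
      refine ⟨q, fun n => ?_⟩
      obtain ⟨s, hs, C, o, h1, h2⟩ := hq n
      exact ⟨s, hs, C, o, h1, Thr_loc h2⟩)
    exact ⟨c, fun n => by simpa using hc n⟩
  tfae_finish

theorem Thr_hc (hUPQ : UPQ_stmt) (hQFR : QFR_stmt) (k : ℕ → ℕ) :
    [(∃ c : ℕ, ∀ n, min (k n) n ≤ c * lg n ^ c) ∧ ∀ A, InNPPoly A → InQuasi A,
      ∀ A, InNPPoly A → HazQuasi k A,
      HazQuasi k HC].TFAE := by
  tfae_have 1 → 2 := fun h A hA => hUPQ k A h.1 (h.2 A hA)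
  tfae_have 2 → 3 := fun h => h HC HNP.1
  tfae_have 3 → 1 := by
    intro h
    refine ⟨GRO_all k (hQFR.1 k HC h fun n x y hxy _ hx => HNP.2 n hxy hx), ?_⟩
    exact Pool.Agent.HM.all_NPC.2 (Thr_inQ h)
  tfae_finish

theorem Thr_poly (hUPP : UPP_stmt) (k : ℕ → ℕ)
    (hk : ∃ c, ∀ n, min (k n) n * lg (min (k n) n) ≤ c * lg n) :
    (∀ A, InPPoly A → HazPoly k A) ∧
      [∀ A, InNPPoly A → InPPoly A, ∀ A, InNPPoly A → HazPoly k A, HazPoly k HC].TFAE := by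
  have h1 : ∀ A, InPPoly A → HazPoly k A := fun A hA =>
    Thr_poly_min (hUPP (fun n => min (k n) n) A hk hA)
  refine ⟨h1, ?_⟩
  tfae_have 1 → 2 := fun h A hA => h1 A (h A hA)
  tfae_have 2 → 3 := fun h => h HC HNP.1
  tfae_have 3 → 1 := fun h => Pool.Agent.HM.all_NPC.1 (Thr_inP h)
  tfae_finish

theorem Thr_gap (hGRP : GRP_stmt) (hQFR : QFR_stmt) :
    ∃ c : ℕ, ∀ k : ℕ → ℕ, HazPoly k HC → ∃ b, ∀ n, min (k n) n ≤ b * lg n ^ c := by
  obtain ⟨c, hc⟩ := hGRP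
  exact ⟨c, fun k h => hc k (hQFR.2 k HC h fun n x y hxy _ hx => HNP.2 n hxy hx)⟩

theorem Thr_gapP (hQFR : QFR_stmt) (k : ℕ → ℕ)
    (h : ∀ A, InPPoly A → (∀ n, Monotone (A n)) → HazPoly k A) :
    ∃ c : ℕ, ∀ n, min (k n) n ≤ c * lg n ^ 20 := by
  obtain ⟨c, hc⟩ := Pool.Agent.NG.poly_growth_P k (fun _ => 0) (fun A hA hm => by
      obtain ⟨q, hq⟩ := hQFR.2 k A (h A hA hm) fun n =>
        fun x y hxy _ hx => hm n hxy hx
      refine ⟨q, fun n => ?_⟩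
      obtain ⟨s, hs, C, o, h1, h2⟩ := hq n
      exact ⟨s, hs, C, o, h1, Thr_loc h2⟩)
  exact ⟨c, fun n => by simpa using hc n⟩

end Pool.Agent.HZF
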