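import Pool.Agent.helper16.HZF.FIN
import Pool.Agent.helper16.HZF.GRP
import Pool.Agent.helper18.HZF.CSB
import Pool.Agent.helper20.HZF.SPL
import Pool.Agent.helper38.HZF.TTB
import Pool.Agent.helper38.HZF.UPP
import Pool.Agent.helper5.HZF.FIU
import Pool.Agent.helper5.HZF.GCO
import Pool.Agent.helper5.HZF.V3S
import Pool.Agent.helper50.HZF.LFC
import Pool.Agent.helper52.HZF.LBM
import Pool.Agent.helper55.HZF.BDC
import Pool.Agent.helper55.HZF.BIG
import Pool.Agent.helper55.HZF.DV3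
import Pool.Agent.helper55.HZF.STC
import Pool.Agent.helper61.HZF.UPQ
import Pool.Agent.helper72.HZF.HSH
import Pool.Agent.helper72.HZF.PWC
import Pool.Agent.helper78.HZF.MAJ
import Pool.Agent.helper87.HZF.QFR
import Pool.Agent.helper90.HZF.FPT
import Pool.Agent.helper98.HZF.ASM
import Pool.Agent.helper91.HZF.GAB
import Pool.Agent.helper91.HZF.LFA
import Pool.Agent.helper91.HZF.LFB
import Pool.Agent.helper91.HZF.OCC
import Pool.Agent.helper91.HZF.PWL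
import Pool.Agent.helper91.HZF.Thr

/-!
# Project HZF (MP_069684_lc): the rows without hypotheses
-/

set_option autoImplicit false

namespace Pool.Agent.HZF

open Finset Pool.Agent.helper38.Neg Pool.Agent.helper55.NT Pool.Agent.LN

theorem zSTC : STC_stmt := STC BIG (BDC (LFC BIG PWC)) CSB

theorem zGAB : GAB_stmt := GAB (STA (LFA PWL) OCC) (STB (LFB PWL) OCC) OCC

theorem zFPT : FPT_stmt := FPT (ASM (HSH CSB) SPL MAJ (GCO zSTC) zGAB FIN V3S) TTB

theorem zQFR : QFR_stmt := QFR (LBM DV3 FIU)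

theorem zGRP : GRP_stmt := GRP (LBU PRJ_all SUB)

theorem zQuasi (k : ℕ → ℕ) :
    [∃ c : ℕ, ∀ n, min (k n) n ≤ c * lg n ^ c,
      ∀ A, InQuasi A → HazQuasi k A,
      ∀ A, InPPoly A → (∀ n, Monotone (A n)) → HazQuasi k A].TFAE := Thr_quasi (UPQ zFPT) zQFR k

theorem zHC (k : ℕ → ℕ) :
    [(∃ c : ℕ, ∀ n, min (k n) n ≤ c * lg n ^ c) ∧ ∀ A, InNPPoly A → InQuasi A,
      ∀ A, InNPPoly A → HazQuasi k A,
      HazQuasi k HC].TFAE := Thr_hc (UPQ zFPT) zQFR k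

theorem zPoly (k : ℕ → ℕ) (hk : ∃ c, ∀ n, min (k n) n * lg (min (k n) n) ≤ c * lg n) :
    (∀ A, InPPoly A → HazPoly k A) ∧
      [∀ A, InNPPoly A → InPPoly A, ∀ A, InNPPoly A → HazPoly k A, HazPoly k HC].TFAE :=
  Thr_poly (UPP zFPT) k hk

theorem zGap : ∃ c : ℕ, ∀ k : ℕ → ℕ, HazPoly k HC → ∃ b, ∀ n, min (k n) n ≤ b * lg n ^ c :=
  Thr_gap zGRP zQFR

theorem zGapP (k : ℕ → ℕ) (h : ∀ A, InPPoly A → (∀ n, Monotone (A n)) → HazPoly k A) :
    ∃ c : ℕ, ∀ n, min (k n) n ≤ c * lg n ^ 20 := Thr_gapP zQFR k h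

end Pool.Agent.HZF
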