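import Pool.Agent.helper55.NT.Defs

/-!
# Project HZF (MP_069684_lc): circuits without k-bit hazards. The definitions of the statement
-/

set_option autoImplicit false

namespace Pool.Agent.HZF

open Pool.Agent.helper38.Neg Pool.Agent.helper55.NT

/-! ### Three valued evaluation: `some b` is the stable value `b`, `none` is unstable -/

/-- AND of three valued signals. -/
def and3 : Option Bool → Option Bool → Option Bool
  | some false, _ => some false
  | _, some false => some false
  | some true, some true => some true
  | _, _ => none

/-- OR of three valued signals. -/
def or3 : Option Bool → Option Bool → Option Bool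
  | some true, _ => some true
  | _, some true => some true
  | some false, some false => some false
  | _, _ => none

/-- NOT of a three valued signal. -/
def not3 : Option Bool → Option Bool
  | some b => some (!b)
  | none => none

/-- The three valued value of a gate. -/
def eval3 {w : ℕ} (v : Fin w → Option Bool) : Gate w → Option Bool
  | Gate.const b => some b
  | Gate.and i j => and3 (v i) (v j)
  | Gate.or i j => or3 (v i) (v j)
  | Gate.not i => not3 (v i)

/-- The three valued values of all wires of a circuit. -/
def val3 {n : ℕ} : {s : ℕ} → Circuit n s → (Fin n → Option Bool) → (Fin (n + s) → Option Bool)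
  | _, Circuit.nil, α => α
  | _, Circuit.snoc C g, α => Fin.snoc (α := fun _ => Option Bool) (val3 C α) (eval3 (val3 C α) g)

/-- The word `x` is a resolution of `α`: it agrees with `α` at the stable places. -/
def Res {n : ℕ} (α : Fin n → Option Bool) (x : Fin n → Bool) : Prop := ∀ i b, α i = some b → x i = b

/-- The number of unstable inputs. -/
def unst {n : ℕ} (α : Fin n → Option Bool) : ℕ := (Finset.univ.filter fun i => α i = none).card

/-- The output wire `o` of `C` has no `k`-bit hazard: if at most `k` inputs are unstable and all resolutions give the same
output `b`, then the three valued output is `b`. -/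
def HazFree (k : ℕ) {n s : ℕ} (C : Circuit n s) (o : Fin (n + s)) : Prop :=
  ∀ (α : Fin n → Option Bool) (b : Bool), unst α ≤ k → (∀ x, Res α x → C.val x o = b) →
    val3 C α o = some b

/-- The slices of `A` have circuits with at most `S n` gates without `k n`-bit hazard. -/
def HasHaz (S k : ℕ → ℕ) (A : Lang) : Prop :=
  ∀ n, ∃ s ≤ S n, ∃ (C : Circuit n s) (o : Fin (n + s)), C.Computes o (A n) ∧ HazFree (k n) C o

/-- Polynomial size. -/
def HazPoly (k : ℕ → ℕ) (A : Lang) : Prop := ∃ p : Polynomial ℕ, HasHaz (fun n => p.eval n) k A

/-- Quasi-polynomial size. -/
def HazQuasi (k : ℕ → ℕ) (A : Lang) : Prop := ∃ q : ℕ, HasHaz (fun n => 2 ^ (q * lg n ^ q)) k A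

end Pool.Agent.HZF
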