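import Pool.Agent.helper91.HZF.Spec

set_option autoImplicit false

namespace Pool.Agent.HZF

open Finset Pool.Agent.helper38.Neg Pool.Agent.helper55.NT

theorem PWL_par {n : ℕ} {S : Finset (Fin n)} {x y : Fin n → Bool} (h : ∀ i ∈ S, x i = y i) :
    par S x = par S y := by
  unfold par
  have : (S.filter fun i => x i = true) = S.filter fun i => y i = true := by
    apply Finset.filter_congr
    intro i hi
    rw [h i hi]
  rw [this]

theorem PWL : PWL_stmt := by
  refine ⟨?_, ?_, ?_⟩
  · intro n S v α hα hp
    unfold pw
    rw [decide_eq_true_iff]
    refine ⟨sv α, fun i hi => ?_, hp⟩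
    have := hα i hi
    unfold loR sv
    cases h : α i with
    | none => exact absurd h this
    | some b => simp
  · intro n S v α hα hp
    unfold pw
    rw [decide_eq_false_iff_not]
    rintro ⟨x, hx, hv⟩
    apply hp
    rw [← hv]
    apply PWL_par
    intro i hi
    have h1 := hα i hi
    have h2 := hx i hi
    unfold hiR at h2
    unfold sv
    cases h : α i with
    | none => exact absurd h h1
    | some b =>
      rw [h] at h2
      simp only [decide_eq_true_eq, ne_eq, Option.some.injEq] at h2
      simp only [Option.getD_some]
      revert h2
      cases b <;> cases x i <;> simp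
  · intro n S i x hi
    unfold par
    have h1 : (S.filter fun j => x j = true) = if x i = true then
        insert i ((S.erase i).filter fun j => x j = true) else (S.erase i).filter fun j => x j = true := by
      ext j
      by_cases hx : x i = true
      · simp only [hx, if_true, mem_filter, mem_insert, mem_erase]
        constructor
        · rintro ⟨h1, h2⟩
          by_cases hj : j = i
          · exact Or.inl hj
          · exact Or.inr ⟨⟨hj, h1⟩, h2⟩
        · rintro (rfl | ⟨⟨_, h1⟩, h2⟩)
          · exact ⟨hi, hx⟩
          · exact ⟨h1, h2⟩
      · rw [if_neg hx]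
        simp only [mem_filter, mem_erase]
        constructor
        · rintro ⟨h1, h2⟩
          exact ⟨⟨fun h => hx (h ▸ h2), h1⟩, h2⟩
        · rintro ⟨⟨_, h1⟩, h2⟩
          exact ⟨h1, h2⟩
    rw [h1]
    by_cases hx : x i = true
    · rw [if_pos hx, hx, card_insert_of_notMem (by simp)]
      have := Nat.mod_two_eq_zero_or_one ((S.erase i).filter fun j => x j = true).card
      rcases this with h | h
      · simp [Nat.add_mod, h]
      · simp [Nat.add_mod, h]
    · rw [if_neg hx]
      simp only [Bool.not_eq_true] at hx
      rw [hx]
      simp

end Pool.Agent.HZF
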