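import Pool.Agent.helper91.HZF.Defs

/-!
# Project HZF (MP_069684_lc): circuits without k-bit hazards. Specification

THEOREM. (1) Every circuit of size `s` has a version without `k`-bit hazards of size `(s+1) (n+2)^c (k+2)^(c k)`.
(2) All languages of P/Poly have quasi-polynomial circuits without `k n`-bit hazards iff `k` is polylogarithmic.
(3) Half clique has such circuits iff `k` is polylogarithmic and NP/Poly has quasi-polynomial circuits. Page:
/team-store/MP_069684_hazard_helper91.md (complete proof of (1) in 40 lines; READ IT for LFA, LFB, STA, STB).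

RULES. Row `X`: file `Pool/Agent/<seat>/HZF/X.lean`, `import Pool.Agent.helper91.HZF.Spec`, `set_option autoImplicit
false`, `namespace Pool.Agent.HZF`, `theorem X (h1 : Y_stmt) ... : X_stmt` (other statements of this file may be
hypotheses, no circles). Auxiliary lemmas prefixed `X_`. No `native_decide`, no double quotes, no
`macro`/`notation`. Land, lock note DONE, one line to helper91.

`SL`, `Rel`, `Rel.trans`, `Rel.trans'`, `Rel.union`, `Rel.biUnion`, `Rel.mono`, `Rel.var`, ...: `Pool/Agent/helper55/NT/SL.lean` (`Rel F m 0 G`: from the functions `F` all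
functions of `G` are computed with `m` more gates, no NOT gate; the input bits are always available). `dval`, `dval_le`, `dval_ge`, `Rel.dual`:
`Pool/Agent/helper55/NT/Dual.lean`. Both are imported by Defs.
-/

set_option autoImplicit false

namespace Pool.Agent.HZF

open Finset Pool.Agent.helper38.Neg Pool.Agent.helper55.NT Pool.Agent.LN

/-! ## A. Three valued evaluation and rails -/

/-- **DV3** (short, medium). Induction on `C` (`Fin.lastCases`, as in the proof of `dval_le`); for every gate a finite check on the values of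
`val3` (`rcases`/`decide` over `Option Bool`). -/
def DV3_stmt : Prop := ∀ (n s : ℕ) (C : Circuit n s) (α : Fin n → Option Bool) (j : Fin (n + s)),
  dval C (fun i => loR α i true) (fun i => loR α i false) j =
    (decide (val3 C α j = some true), decide (val3 C α j = some false)) ∧
  dval C (fun i => hiR α i true) (fun i => hiR α i false) j =
    (decide (val3 C α j ≠ some false), decide (val3 C α j ≠ some true))

/-- **V3S** (short). Induction on `C`. -/
def V3S_stmt : Prop := ∀ (n s : ℕ) (C : Circuit n s) (x : Fin n → Bool) (j : Fin (n + s)),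
  val3 C (fun i => some (x i)) j = some (C.val x j)

/-- **FIN** (medium). First a circuit with `n` NOT gates, the wire `n + i` being the negation of input `i` (by induction: for every `t ≤ n` a `Circuit n t`
whose wire `n + i` has `val3 = not3 (α i)`, `i < t`). Then induction on `SL L 0` (generalise `0`; no NOT gate can occur), keeping the old wires (see
`SL.toCircuit` in helper55/NT/SL.lean). Inputs `castAdd n i`, `natAdd n i` of `f`: the input wire `i`, the NOT gate `i` (`wd (loR α) (castAdd n i) = decide (α i = some true)`,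
`wd (hiR α) (castAdd n i) = decide (α i ≠ some false)`, ...). AND: if `f` and `g` are `true` at `lo` both wires are `some true`; if one of them is `false` at `hi` its wire is `some false` and
`and3` gives `some false`. OR: dual. -/
def FIN_stmt : Prop := ∀ (n : ℕ) (L : List (Fn (n + n))), SL L 0 →
  ∃ C : Circuit n (n + L.length), ∀ f, Op L f → ∃ j, ∀ α : Fin n → Option Bool,
    (f (wd (loR α)) = true → val3 C α j = some true) ∧
      (f (wd (hiR α)) = false → val3 C α j = some false)

/-- **FIU** (medium). As FIN: first the gate `const true`, then `n` gates: for `i < u` the gate `const true`, for `i ≥ u` the NOT gate of input `i`; then the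
gates of `L`. The NOT-vector is the list of the negations of the inputs `i ≥ u`. -/
def FIU_stmt : Prop := ∀ (n u : ℕ) (L : List (Fn (n + n))), SL L 0 →
  ∃ C : Circuit n (n + 1 + L.length), FreeOf u C ∧ ∀ f, Op L f → ∃ j, ∀ x : Fin n → Bool,
    C.val x j = f (Fin.append x fun i => if (i : ℕ) < u then true else !(x i))

/-! ## B. Costs -/

/-- **BIG** (short, medium). Induction on `S` (`Finset.induction_on`), starting with a constant; `Rel.trans'`, `Rel.or`, `Rel.and`. -/
def BIG_stmt : Prop := ∀ (N : ℕ) (ι : Type) (S : Finset ι) (f : ι → Fn N),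
  Rel (⋃ i ∈ S, {f i}) (S.card + 1) 0 {fun y => decide (∃ i ∈ S, f i y = true)} ∧
  Rel (⋃ i ∈ S, {f i}) (S.card + 1) 0 {fun y => decide (∀ i ∈ S, f i y = true)}

/-- **PWC** (medium). Induction on `S`: `pw (insert i S) v r = (r i true && pw S (!v) r) || (r i false && pw S v r)` for `i ∉ S` (change the word at
`i`); `pw ∅ v r = decide (v = false)`. Three gates for each `v`; `rv y i v = y (rail i v)` is an input bit. -/
def PWC_stmt : Prop := ∀ (n : ℕ) (S : Finset (Fin n)), Rel ∅ (6 * S.card + 2) 0
  ({fun y => pw S true (rv y)} ∪ {fun y => pw S false (rv y)})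

/-- **LFC** (medium). From BIG, PWC. By cases on the conditions in `leaf` (they do not depend on `y`); `∃ x, χ x i = false ∧ g = true` is `∃ x ∈ S, g = true` with
`S = univ.filter (χ · i = false)`, the same for `∀`. At most `6 n + 2` gates for both parities, `m + 1` twice, and 3 gates. -/
def LFC_stmt : Prop := ∀ (n B m : ℕ) (h : Fin n → Fin B) (χ : Fin m → Fin n → Bool)
  (σ : Fin B → Option (Fin m)) (OA OB a c : Finset (Fin B)) (gg : Fin B → Fin m → Fn (n + n))
  (i : Fin n) (v : Bool),
  Rel (Set.range fun p : Fin B × Fin m => gg p.1 p.2) (6 * n + 2 * m + 10) 0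
    {fun y => leaf h χ σ OA OB a c (fun b x => gg b x y) (rv y) i v}

/-- **BDC** (short, medium). From LFC and `Rel.dual` (`P i = leaf .. i true`, `Q i = leaf .. i false`; `Rel.biUnion` over the `2 n` pairs `(i, v)`). -/
def BDC_stmt : Prop := ∀ (n s B m : ℕ) (C : Circuit n s) (o : Fin (n + s)) (h : Fin n → Fin B)
  (χ : Fin m → Fin n → Bool) (σ : Fin B → Option (Fin m)) (OA OB a c : Finset (Fin B))
  (gg : Fin B → Fin m → Fn (n + n)),
  Rel (Set.range fun p : Fin B × Fin m => gg p.1 p.2) (2 * s + 2 * n * (6 * n + 2 * m + 10)) 0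
    {fun y => body C o h χ σ OA OB a c (fun b x => gg b x y) (rv y)}

/-- **CSB** (short). An injection: a set with at most `k` elements is the range of a map `Fin k → Option (Fin B)` (its elements in order, then `none`). -/
def CSB_stmt : Prop := ∀ B k : ℕ,
  (univ.filter fun O : Finset (Fin B) => O.card ≤ k).card ≤ (B + 1) ^ k

/-- **STC** (medium). From BIG, BDC, CSB. Rewrite `step` with bounded quantifiers: `∀ OB ∈ S`, `∃ OA ∈ S`, `∃ a ∈ OB.powerset`, `∀ c ∈ OA.powerset`, where
`S = univ.filter (card ≤ k ∧ supp σ ⊆ ·)`, `S.card ≤ P = (B+1)^k`, the powersets have at most `2^k` elements. With `b` = cost of `body`: `2^k b + 2^k + 1 ≤ 2^k (b+2)`, then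
`≤ 4^k (b+4)`, `≤ P 4^k (b+6)`, `≤ P^2 4^k (b+8)` (`Rel.biUnion`, `Rel.trans'` with BIG at each quantifier). -/
def STC_stmt : Prop := ∀ (n s B m : ℕ) (C : Circuit n s) (o : Fin (n + s)) (k : ℕ)
  (h : Fin n → Fin B) (χ : Fin m → Fin n → Bool) (σ : Fin B → Option (Fin m))
  (gg : Fin B → Fin m → Fn (n + n)),
  Rel (Set.range fun p : Fin B × Fin m => gg p.1 p.2)
    ((4 * (B + 1) ^ 2) ^ k * (2 * s + 2 * n * (6 * n + 2 * m + 10) + 8)) 0
    {fun y => step C o k h χ σ (fun b x => gg b x y) (rv y)}

/-- **GCO** (short, medium). From STC. Induction on `d`. `d = 0`: a constant. `d + 1`: `Rel.biUnion` over the `B m` pairs for the functions `G d (update σ b (some x))`, then STC: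
`B m X_d + T_0 ≤ (B m + 1) X_d` for `X_d = (B m + 1)^d (T_0 + 1)`. -/
def GCO_stmt : Prop := ∀ (n s B m : ℕ) (C : Circuit n s) (o : Fin (n + s)) (k : ℕ)
  (h : Fin n → Fin B) (χ : Fin m → Fin n → Bool) (d : ℕ) (σ : Fin B → Option (Fin m)),
  Rel ∅ ((B * m + 1) ^ d * ((4 * (B + 1) ^ 2) ^ k * (2 * s + 2 * n * (6 * n + 2 * m + 10) + 8) + 1)) 0
    {fun y => G C o k h χ d σ (rv y)}

/-- **MAJ** (medium). `T i t` = at least `t` of the first `i` functions are `true`; `T (i+1) (t+1) = T i (t+1) ∨ (T i t ∧ f i)`, `T i 0 = true`, `T 0 (t+1) = false`: two constants and two gates for each pair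
`i, t ≤ M`. -/
def MAJ_stmt : Prop := ∀ (N M : ℕ) (f : Fin M → Fn N), Rel (Set.range f) (4 * (M + 1) ^ 2) 0
  {fun y => decide (M < 2 * (univ.filter fun j => f j y = true).card)}

/-! ## C. Correctness -/

/-- **PWL** (short, medium). For stable `α` on `S` the only word allowed by the rails on `S` is `sv α` (on `S`). -/
def PWL_stmt : Prop :=
  (∀ (n : ℕ) (S : Finset (Fin n)) (v : Bool) (α : Fin n → Option Bool), (∀ i ∈ S, α i ≠ none) →
    par S (sv α) = v → pw S v (loR α) = true) ∧
  (∀ (n : ℕ) (S : Finset (Fin n)) (v : Bool) (α : Fin n → Option Bool), (∀ i ∈ S, α i ≠ none) →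
    par S (sv α) ≠ v → pw S v (hiR α) = false) ∧
  ∀ (n : ℕ) (S : Finset (Fin n)) (i : Fin n) (x : Fin n → Bool), i ∈ S →
    par S x = xor (par (S.erase i) x) (x i)

/-- **LFA** (medium). From PWL. Page, A-side. Let `b = h i`, `z = cmp h χ σ true OB c α`; if `α i = none` then `b ∈ occ h α` and all other places of the bucket are stable (`Iso`). Unfold `leaf`.
First case (`σ b = some x`, `χ x i = true`, or `σ b = none`, `b ∈ occ`, `b ∉ OB`): `i` stable: `loR α i (z i) = true`. `α i = none`: `z i = par (part true \ i) xor (b ∈ c)` (the second condition in `cmp` holds), so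
`z i xor (b ∈ c)` is the parity of the stable set `part true \ i`: PWL. Second case (`σ b = some x`, `χ x i = false`, or `b ∉ occ`, `b ∈ OB`): `i` is stable (if `α i = none`, `σ b = some x`: `InS` gives an unstable place of the bucket with `χ = true`,
which is `i` by `Iso`), `part false` is stable for the same reason, `i ∈ part false`, `b ∈ OB` (`supp σ ⊆ OB`), so `par (part false \ i) = (b ∈ ann) xor (z i)`: PWL. Third case (`σ b = none`, `b ∈ occ`, `b ∈ OB`): `i` stable: there is `i' ≠ i` unstable in the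
bucket; `Sep` gives `x` with `χ x i' = true`, `χ x i = false`, `InS` holds for `update σ b (some x)` (place `i'`), so `g b x = true`. `α i = none`: `z i = par (part true \ i)`, PWL; for all `x` with `χ x i = true` `InS` holds for the update (place `i`). -/
def LFA_stmt : Prop := ∀ (n B m : ℕ) (h : Fin n → Fin B) (χ : Fin m → Fin n → Bool)
  (σ : Fin B → Option (Fin m)) (OB c : Finset (Fin B)) (g : Fin B → Fin m → Bool)
  (α : Fin n → Option Bool), Sep χ → Iso h α → InS h χ true σ α → supp σ ⊆ OB →
  (∀ b x, σ b = none → InS h χ true (Function.update σ b (some x)) α → g b x = true) →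
  ∀ i, leaf h χ σ (occ h α) OB (ann h χ σ false OB α) c g (loR α) i (cmp h χ σ true OB c α i) = true

/-- **LFB** (medium). From PWL. Page, B-side; dual to LFA. `b = h i`, `z = cmp h χ σ false OA a α`, `v = !(z i)`. First case (`σ b = some x`, `χ x i = true`, or `b ∈ OA`, `b ∉ occ`): `i` and `part true` are stable, `i ∈ part true`, `b ∈ OA`
(`supp σ ⊆ OA`), `hiR α i v = false`, and the parity of `part true \ i` is `(b ∈ ann) xor (z i)`, different from `v xor (b ∈ ann)`: PWL. Second case (`σ b = some x`, `χ x i = false`, or `b ∉ OA`, `b ∈ occ`): `i` stable: `hiR α i v = false`; unstable: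
`par (part false \ i) = z i xor (b ∈ a)`: PWL. Third case: `i` unstable: `g b x = false` for all `x` with `χ x i = false` (`InS` for the update with `v = false`), and `pw = false`; `i` stable: `hiR α i v = false`, and `Sep` gives `x` with `χ x i = true`, `χ x i' = false`, so
`g b x = false`. Last case (`b ∉ OA`, `b ∉ occ`): `i` is stable. -/
def LFB_stmt : Prop := ∀ (n B m : ℕ) (h : Fin n → Fin B) (χ : Fin m → Fin n → Bool)
  (σ : Fin B → Option (Fin m)) (OA a : Finset (Fin B)) (g : Fin B → Fin m → Bool)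
  (α : Fin n → Option Bool), Sep χ → Iso h α → InS h χ false σ α → supp σ ⊆ OA →
  (∀ b x, σ b = none → InS h χ false (Function.update σ b (some x)) α → g b x = false) →
  ∀ i, leaf h χ σ OA (occ h α) a (ann h χ σ true OA α) g (hiR α) i (!(cmp h χ σ false OA a α i)) = false

/-- **OCC** (short). `occ` is the image of the unstable set; `InS` gives an unstable input in every bucket of `supp σ`; `cmp` agrees with `α` at the stable places. -/
def OCC_stmt : Prop := (∀ (n B : ℕ) (h : Fin n → Fin B) (α : Fin n → Option Bool),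
    (occ h α).card ≤ unst α) ∧
  (∀ (n B m : ℕ) (h : Fin n → Fin B) (χ : Fin m → Fin n → Bool) (v : Bool)
    (σ : Fin B → Option (Fin m)) (α : Fin n → Option Bool), InS h χ v σ α → supp σ ⊆ occ h α) ∧
  ∀ (n B m : ℕ) (h : Fin n → Fin B) (χ : Fin m → Fin n → Bool) (σ : Fin B → Option (Fin m)) (v : Bool)
    (O e : Finset (Fin B)) (α : Fin n → Option Bool), Res α (cmp h χ σ v O e α)

/-- **STA** (short, medium). From LFA, OCC. Given `OB` take `OA = occ h α`, `a = ann h χ σ false OB α ⊆ OB`; for every `c` let `z = cmp h χ σ true OB c α`: `C.val z o = true` and `dval_le` (first rail) with LFA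
for both values of `z i`. -/
def STA_stmt : Prop := ∀ (n s B m : ℕ) (C : Circuit n s) (o : Fin (n + s)) (k : ℕ)
  (h : Fin n → Fin B) (χ : Fin m → Fin n → Bool) (σ : Fin B → Option (Fin m))
  (g : Fin B → Fin m → Bool) (α : Fin n → Option Bool), Sep χ → Iso h α → unst α ≤ k →
  InS h χ true σ α → (∀ x, Res α x → C.val x o = true) →
  (∀ b x, σ b = none → InS h χ true (Function.update σ b (some x)) α → g b x = true) →
  step C o k h χ σ g (loR α) = true

/-- **STB** (short, medium). From LFB, OCC. The quantifier `∀ OB` fails for `OB = occ h α`: given `OA`, `a` take `c = ann h χ σ true OA α ⊆ OA`, `z = cmp h χ σ false OA a α`, `C.val z o = false` and `dval_ge` (first rail) with LFB. -/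
def STB_stmt : Prop := ∀ (n s B m : ℕ) (C : Circuit n s) (o : Fin (n + s)) (k : ℕ)
  (h : Fin n → Fin B) (χ : Fin m → Fin n → Bool) (σ : Fin B → Option (Fin m))
  (g : Fin B → Fin m → Bool) (α : Fin n → Option Bool), Sep χ → Iso h α → unst α ≤ k →
  InS h χ false σ α → (∀ x, Res α x → C.val x o = false) →
  (∀ b x, σ b = none → InS h χ false (Function.update σ b (some x)) α → g b x = false) →
  step C o k h χ σ g (hiR α) = false

/-- **GAB** (short, medium). From STA, STB, OCC. Induction on `d`. Second part: `d = 0` is impossible (`(supp σ).card ≤ (occ h α).card ≤ k`); `d + 1`: if `σ b = none` then `supp (update σ b (some x))` has one more element. -/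
def GAB_stmt : Prop := ∀ (n s B m : ℕ) (C : Circuit n s) (o : Fin (n + s)) (k : ℕ)
  (h : Fin n → Fin B) (χ : Fin m → Fin n → Bool) (α : Fin n → Option Bool), Sep χ → Iso h α →
  unst α ≤ k → ∀ (d : ℕ) (σ : Fin B → Option (Fin m)),
    ((∀ x, Res α x → C.val x o = true) → InS h χ true σ α → G C o k h χ d σ (loR α) = true) ∧
    ((∀ x, Res α x → C.val x o = false) → InS h χ false σ α → k < d + (supp σ).card →
      G C o k h χ d σ (hiR α) = false)

/-! ## D. Assembly of the upper bound -/

/-- **HSH** (medium). Counting. `B = 16 k^2 + 1`, `N = (lg n + 1) k + 1`. For `S` with at most `k` elements at most `(k^2/2) B^(n-1) ≤ B^n / 32` maps `Fin n → Fin B` are not injective on `S` (pairs). A tuple `H` violates the claim for `S` if at least `N/2` of its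
entries are not injective on `S`: at most `2^N (1/32)^(N/2) = 2^(-3N/2)` of all tuples. The number of sets `S` is at most `(n+1)^k < 2^((lg n + 1) k) ≤ 2^N` (CSB, `n + 2 < 2^(lg n + 1)` = `lt_two_pow_lg`). So some tuple is good for all `S`. -/
def HSH_stmt : Prop := ∀ n k : ℕ, ∃ H : Fin ((lg n + 1) * k + 1) → Fin n → Fin (16 * k ^ 2 + 1),
  ∀ S : Finset (Fin n), S.card ≤ k →
    (lg n + 1) * k + 1 < 2 * (univ.filter fun j => Set.InjOn (H j) (S : Set (Fin n))).card

/-- **SPL** (short). The bits of `i` (`Nat.testBit`, `i < n < 2^(lg n + 1)`) and their negations. -/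
def SPL_stmt : Prop := ∀ n : ℕ, ∃ χ : Fin (2 * (lg n + 1)) → Fin n → Bool, Sep χ

/-- The size in ASM. -/
def TT (n s k : ℕ) : ℕ := n + (((lg n + 1) * k + 1) *
  (((16 * k ^ 2 + 1) * (2 * (lg n + 1)) + 1) ^ (k + 1) *
    ((4 * (16 * k ^ 2 + 1 + 1) ^ 2) ^ k *
      (2 * s + 2 * n * (6 * n + 2 * (2 * (lg n + 1)) + 10) + 8) + 1)) +
  4 * ((lg n + 1) * k + 1 + 1) ^ 2)

/-- **ASM** (medium). From HSH, SPL, MAJ, GCO, GAB, FIN, V3S. `F = ` majority of the functions `fun y => G C o k (H j) χ (k+1) (fun _ => none) (rv y)`: `Rel ∅ _ 0 {F}` (`Rel.biUnion`, MAJ), so an `SL` list of this length, then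
FIN (take `Op` of `F`). If `unst α ≤ k` and all resolutions give `true`: `Iso (H j) α` for more than half of the `j` (`H j` injective on the unstable set), `InS` holds (no split bucket), `rv (wd r) = r`, GAB: `F (wd (loR α)) = true`. `false`: fewer than half of the `j` can have the value `true`. For `k' ≤ k`
nothing is needed. `C'.val x o' = C.val x o`: `α = fun i => some (x i)` has `unst α = 0` and the only resolution `x`; V3S. -/
def ASM_stmt : Prop := ∀ (n s k : ℕ) (C : Circuit n s) (o : Fin (n + s)),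
  ∃ s' ≤ TT n s k, ∃ (C' : Circuit n s') (o' : Fin (n + s')),
    (∀ x, C'.val x o' = C.val x o) ∧ HazFree k C' o'

/-- **TTB** (medium). Arithmetic. `lg n + 1 ≤ n + 2`. Main point: `(lg n + 1)^(k+1) ≤ (n+2)^c (k+2)^(c k)`: with `l = lg n + 1`: if `l ≤ (k+2)^2` clear (`(k+2)^2` for the extra factor is at most `(n+2)^..` or `k = 0`: use `l ≤ n + 2` for one factor); otherwise `k < sqrt l`, `l^k ≤ 2^(k log2 l) ≤
2^(sqrt l · 2 sqrt l) ≤ 2^(2 l) ≤ (2 (n+2))^2` (`2^x ≥ x^2/..`; `log2 l ≤ 2 sqrt l`). `((16k^2+1) 2 l + 1)^(k+1) ≤ (34 (k+1)^2 l)^(k+1)`, constants to the power `k` are at most `(k+2)^(c k)`. -/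
def TTB_stmt : Prop := ∃ c : ℕ, ∀ n s k : ℕ, TT n s k ≤ (s + 1) * (n + 2) ^ c * (k + 2) ^ (c * k)

/-- **FPT** (short). From ASM, TTB. -/
def FPT_stmt : Prop := ∃ c : ℕ, ∀ (n s k : ℕ) (C : Circuit n s) (o : Fin (n + s)),
  ∃ s' ≤ (s + 1) * (n + 2) ^ c * (k + 2) ^ (c * k), ∃ (C' : Circuit n s') (o' : Fin (n + s')),
    (∀ x, C'.val x o' = C.val x o) ∧ HazFree k C' o'

/-! ## E. Thresholds -/

/-- **UPQ** (medium). From FPT. Use it for `min (k n) n` (`unst α ≤ n`, so `HazFree (min k n)` is `HazFree k`). `(2^(q l^q) + 1) (n+2)^c (c l^c + 2)^(c c l^c) ≤ 2^(q' l^q')`, `l = lg n`, `n + 2 ≤ 2^(l+1)`. -/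
def UPQ_stmt : Prop := ∀ (k : ℕ → ℕ) (A : Lang), (∃ c, ∀ n, min (k n) n ≤ c * lg n ^ c) →
  InQuasi A → HazQuasi k A

/-- **UPP** (medium). From FPT. `(k+2)^(c k) ≤ 2^(c (lg k + 1) k) ≤ 2^(c' lg n) ≤ (n+2)^c'`; a polynomial bound. -/
def UPP_stmt : Prop := ∀ (k : ℕ → ℕ) (A : Lang), (∃ c, ∀ n, k n * lg (k n) ≤ c * lg n) →
  InPPoly A → HazPoly k A

/-- **LBM** (medium). From DV3, FIU. For an input `x` let `α i = none` if `i < u` and `x i = true`, `α i = some (x i)` otherwise. `unst α ≤ u ≤ k`. `f x` iff `val3 C α o ≠ some false`: `x` is a resolution (`val3 = some false` would give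
`C.val x o = false` - prove: `val3 C α o = some b` and `Res α x` give `C.val x o = b`, by DV3, `dval_ge`); if `¬ f x` then all resolutions `x'` satisfy `x' ≤ x`, agree from `u` on, so `¬ f x'` (`MonoIn`) and `HazFree` gives `some false`. By DV3 this is the first rail of `dval` at
`hiR α`, and `hiR α i true = x i`, `hiR α i false = (i < u) ∨ ¬ x i`: `Rel.dual` (for `n + n` bits, `P i y = y (castAdd n i)`, `Q i y = y (natAdd n i)`) and FIU. -/
def LBM_stmt : Prop := ∀ (n s u k : ℕ) (C : Circuit n s) (o : Fin (n + s))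
  (f : (Fin n → Bool) → Prop), C.Computes o f → HazFree k C o → u ≤ k → MonoIn u f →
  ∃ s' ≤ 2 * s + n + 1, ∃ (C' : Circuit n s') (o' : Fin (n + s')), C'.Computes o' f ∧ FreeOf u C'

/-- **QFR** (short). From LBM with `u = k n`. `2 · 2^(q l^q) + n + 1 ≤ 2^(q' l^q')`. -/
def QFR_stmt : Prop := (∀ (k : ℕ → ℕ) (A : Lang), HazQuasi k A → (∀ n, MonoIn (k n) (A n)) →
    QuasiFree k A) ∧
  ∀ (k : ℕ → ℕ) (A : Lang), HazPoly k A → (∀ n, MonoIn (k n) (A n)) → PolyFree k A

/-- **GRP** (medium). Copy the proof of `GRO` (`Pool/Agent/helper41/LN/GRO.lean`, all auxiliary lemmas there can be imported) with sizes `p(n) ≤ 2^(b lg n)`: `2^(v^δ) ≤ 2 + p(n)` gives `v ≤ (b' lg n)^(1/δ)`, `δ` does not depend on `u` or the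
polynomial. Hypothesis: `LBU_stmt` as in GRO. -/
def GRP_stmt : Prop := ∃ c : ℕ, ∀ u : ℕ → ℕ, PolyFree u HC →
  ∃ b, ∀ n, min (u n) n ≤ b * lg n ^ c

end Pool.Agent.HZF
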